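import Mathlib

/-!
# MP_411ddf_lc: dense alternating k-SUM is Edge Bisection with parameter k on small trees
-/

set_option autoImplicit false

namespace Pool.Agent.Results.MP_411ddf_lc.AlternatingSum

/-- The Edge Bisection question for `(G, k)`: there are a set `E` of at most `k` edges and a
partition `V₁`, `V₁ᶜ` of the vertices with sizes differing by at most one such that every edge
between the two parts is in `E`. -/
def HasBisection {V : Type} [Fintype V] [DecidableEq V] (G : SimpleGraph V) (k : ℕ) : Prop :=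
  ∃ E : Finset (Sym2 V), (E : Set (Sym2 V)) ⊆ G.edgeSet ∧ E.card ≤ k ∧
    ∃ V₁ : Finset V, V₁.card ≤ V₁ᶜ.card + 1 ∧ V₁ᶜ.card ≤ V₁.card + 1 ∧
      ∀ u ∈ V₁, ∀ v ∉ V₁, G.Adj u v → s(u, v) ∈ E

/-- `u` is the last element of `S` before `v`. -/
def IsParent (S : Finset ℕ) (u v : ℕ) : Prop := u ∈ S ∧ u < v ∧ ∀ w ∈ S, w < v → w ≤ u

/-- The graph on `{0, ..., n-1}` in which every `v` is joined to the last element of `S`
before it. -/
def cat (S : Finset ℕ) (n : ℕ) : SimpleGraph (Fin n) where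
  Adj u v := IsParent S u v ∨ IsParent S v u
  symm := ⟨fun _ _ h => h.symm⟩
  loopless := ⟨fun u h => by
    rcases h with h | h
    · exact lt_irrefl _ h.2.1
    · exact lt_irrefl _ h.2.1⟩

/-- the last element of `S` before `v` -/
def par (S : Finset ℕ) (v : ℕ) : ℕ := (S.filter (· < v)).sup id

lemma isParent_par {S : Finset ℕ} (h0 : 0 ∈ S) {v : ℕ} (hv : 1 ≤ v) : IsParent S (par S v) v := by
  have hne : (S.filter (· < v)).Nonempty := ⟨0, by simp [h0]; omega⟩
  obtain ⟨u, hu, hu'⟩ := Finset.exists_mem_eq_sup _ hne id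
  have : par S v = u := hu'
  rw [Finset.mem_filter] at hu
  refine ⟨by rw [this]; exact hu.1, by rw [this]; exact hu.2, fun w hw hwv => ?_⟩
  exact Finset.le_sup (f := id) (Finset.mem_filter.mpr ⟨hw, hwv⟩)

lemma par_unique {S : Finset ℕ} {u v : ℕ} (h : IsParent S u v) : u = par S v := by
  have h0 : u ∈ S.filter (· < v) := Finset.mem_filter.mpr ⟨h.1, h.2.1⟩
  apply le_antisymm
  · exact Finset.le_sup (f := id) h0
  · apply Finset.sup_le
    intro w hw
    rw [Finset.mem_filter] at hw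
    exact h.2.2 w hw.1 hw.2

lemma isParent_iff {S : Finset ℕ} (h0 : 0 ∈ S) {u v : ℕ} :
    IsParent S u v ↔ 1 ≤ v ∧ u = par S v := by
  constructor
  · intro h
    exact ⟨by have := h.2.1; omega, par_unique h⟩
  · rintro ⟨h, rfl⟩
    exact isParent_par h0 h

lemma par_lt {S : Finset ℕ} (h0 : 0 ∈ S) {v : ℕ} (hv : 1 ≤ v) : par S v < v :=
  (isParent_par h0 hv).2.1

/-- the edge above `v` -/
def up (S : Finset ℕ) (n : ℕ) (h0 : 0 ∈ S) (hn : 1 ≤ n) (v : ℕ) : Sym2 (Fin n) :=
  if h : 1 ≤ v ∧ v < n then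
    s(⟨par S v, lt_trans (par_lt h0 h.1) h.2⟩, ⟨v, h.2⟩)
  else s(⟨0, hn⟩, ⟨0, hn⟩)

lemma up_inj (S : Finset ℕ) (n : ℕ) (h0 : 0 ∈ S) (hn : 1 ≤ n) :
    Set.InjOn (up S n h0 hn) (Finset.Ico 1 n : Finset ℕ) := by
  intro v hv w hw h
  rw [Finset.mem_coe, Finset.mem_Ico] at hv hw
  unfold up at h
  rw [dif_pos hv, dif_pos hw, Sym2.eq_iff] at h
  have h1 := par_lt h0 hv.1
  have h2 := par_lt h0 hw.1
  simp only [Fin.mk.injEq] at h
  omega

lemma up_mem (S : Finset ℕ) (n : ℕ) (h0 : 0 ∈ S) (hn : 1 ≤ n) {v : ℕ} (hv : 1 ≤ v) (hvn : v < n) :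
    up S n h0 hn v ∈ (cat S n).edgeSet := by
  unfold up
  rw [dif_pos ⟨hv, hvn⟩, SimpleGraph.mem_edgeSet]
  exact Or.inl (isParent_par h0 hv)

lemma mem_edgeSet_iff (S : Finset ℕ) (n : ℕ) (h0 : 0 ∈ S) (hn : 1 ≤ n) (e : Sym2 (Fin n)) :
    e ∈ (cat S n).edgeSet ↔ ∃ v ∈ Finset.Ico 1 n, up S n h0 hn v = e := by
  constructor
  · induction e using Sym2.inductionOn with
    | hf x y =>
      intro h
      rw [SimpleGraph.mem_edgeSet] at h
      rcases h with h | h
      · rw [isParent_iff h0] at h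
        refine ⟨y, Finset.mem_Ico.mpr ⟨h.1, y.2⟩, ?_⟩
        unfold up
        rw [dif_pos ⟨h.1, y.2⟩]
        congr 1
        ext
        · exact h.2.symm
      · rw [isParent_iff h0] at h
        refine ⟨x, Finset.mem_Ico.mpr ⟨h.1, x.2⟩, ?_⟩
        unfold up
        rw [dif_pos ⟨h.1, x.2⟩, Sym2.eq_swap]
        congr 1
        ext
        · exact h.2.symm
  · rintro ⟨v, hv, rfl⟩
    rw [Finset.mem_Ico] at hv
    exact up_mem S n h0 hn hv.1 hv.2

lemma cat_reach (S : Finset ℕ) (n : ℕ) (h0 : 0 ∈ S) (hn : 1 ≤ n) (v : ℕ) (hv : v < n) :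
    (cat S n).Reachable ⟨0, hn⟩ ⟨v, hv⟩ := by
  induction v using Nat.strong_induction_on with
  | _ v ih =>
    rcases Nat.eq_zero_or_pos v with h | h
    · subst h; exact SimpleGraph.Reachable.refl _
    · have hp := par_lt h0 h
      have h1 := ih (par S v) hp (lt_trans hp hv)
      refine h1.trans (SimpleGraph.Adj.reachable ?_)
      exact Or.inl (isParent_par h0 h)

theorem cat_isTree (S : Finset ℕ) (n : ℕ) (h0 : 0 ∈ S) (hn : 1 ≤ n) : (cat S n).IsTree := by
  rw [SimpleGraph.isTree_iff_connected_and_card]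
  constructor
  · have : Nonempty (Fin n) := ⟨⟨0, hn⟩⟩
    refine SimpleGraph.Connected.mk (fun u v => ?_)
    exact (cat_reach S n h0 hn u u.2).symm.trans (cat_reach S n h0 hn v v.2)
  · have h1 : (cat S n).edgeSet = ((Finset.Ico 1 n).image (up S n h0 hn) : Finset _) := by
      ext e
      rw [mem_edgeSet_iff S n h0 hn]
      simp
    rw [h1, Nat.card_coe_set_eq, Set.ncard_coe_finset, Finset.card_image_of_injOn (up_inj S n h0 hn),
      Nat.card_Ico, Nat.card_fin]
    omega

/-- translation to sign functions -/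
lemma hasBisection_iff (S : Finset ℕ) (n k : ℕ) (h0 : 0 ∈ S) (hn : 1 ≤ n) :
    HasBisection (cat S n) k ↔ ∃ f : ℕ → ℤ, (∀ u, f u = 1 ∨ f u = -1) ∧
      ((Finset.Ico 1 n).filter (fun v => f v ≠ f (par S v))).card ≤ k ∧
      |∑ u ∈ Finset.range n, f u| ≤ 1 := by
  constructor
  · rintro ⟨E, hE, hEk, V₁, hb1, hb2, hcut⟩
    refine ⟨fun u => if h : u < n then (if (⟨u, h⟩ : Fin n) ∈ V₁ then 1 else -1) else 1, ?_, ?_, ?_⟩
    · intro u
      dsimp only
      split_ifs <;> simp
    · refine le_trans (Finset.card_le_card_of_injOn (up S n h0 hn) ?_ ?_) hEk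
      · intro v hv
        rw [Finset.mem_coe, Finset.mem_filter, Finset.mem_Ico] at hv
        obtain ⟨⟨hv1, hvn⟩, hne⟩ := hv
        have hp := par_lt h0 hv1
        beta_reduce at hne
        rw [dif_pos hvn, dif_pos (lt_trans hp hvn)] at hne
        have hadj : (cat S n).Adj ⟨par S v, lt_trans hp hvn⟩ ⟨v, hvn⟩ :=
          Or.inl (isParent_par h0 hv1)
        have hup : up S n h0 hn v = s(⟨par S v, lt_trans hp hvn⟩, ⟨v, hvn⟩) := by
          unfold up; rw [dif_pos ⟨hv1, hvn⟩]
        rw [Finset.mem_coe, hup]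
        by_cases h1 : (⟨v, hvn⟩ : Fin n) ∈ V₁
        · by_cases h2 : (⟨par S v, lt_trans hp hvn⟩ : Fin n) ∈ V₁
          · simp [h1, h2] at hne
          · rw [Sym2.eq_swap]
            exact hcut _ h1 _ h2 hadj.symm
        · by_cases h2 : (⟨par S v, lt_trans hp hvn⟩ : Fin n) ∈ V₁
          · exact hcut _ h2 _ h1 hadj
          · simp [h1, h2] at hne
      · exact (up_inj S n h0 hn).mono (by
          intro v hv
          rw [Finset.mem_coe, Finset.mem_filter] at hv
          exact hv.1)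
    · have h1 : ∑ u ∈ Finset.range n, (fun u => if h : u < n then
          (if (⟨u, h⟩ : Fin n) ∈ V₁ then (1 : ℤ) else -1) else 1) u =
          (V₁.card : ℤ) - (V₁ᶜ.card : ℤ) := by
        rw [← Fin.sum_univ_eq_sum_range]
        have : ∀ i : Fin n, (if h : (i : ℕ) < n then
            (if (⟨(i : ℕ), h⟩ : Fin n) ∈ V₁ then (1 : ℤ) else -1) else 1) =
            if i ∈ V₁ then 1 else -1 := by
          intro i
          rw [dif_pos i.2]
        simp only [this]
        rw [Finset.sum_ite]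
        have e1 : Finset.univ.filter (fun i : Fin n => i ∈ V₁) = V₁ := by ext; simp
        have e2 : Finset.univ.filter (fun i : Fin n => i ∉ V₁) = V₁ᶜ := by ext; simp
        rw [e1, e2]
        simp
        ring
      rw [h1, abs_le]
      constructor
      · have : (V₁ᶜ.card : ℤ) ≤ V₁.card + 1 := by exact_mod_cast hb2
        linarith
      · have : (V₁.card : ℤ) ≤ V₁ᶜ.card + 1 := by exact_mod_cast hb1
        linarith
  · rintro ⟨f, hf, hcard, hbal⟩
    refine ⟨((Finset.Ico 1 n).filter (fun v => f v ≠ f (par S v))).image (up S n h0 hn), ?_, ?_,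
      Finset.univ.filter (fun i : Fin n => f i = 1), ?_⟩
    · intro e he
      rw [Finset.mem_coe, Finset.mem_image] at he
      obtain ⟨v, hv, rfl⟩ := he
      rw [Finset.mem_filter, Finset.mem_Ico] at hv
      exact up_mem S n h0 hn hv.1.1 hv.1.2
    · exact le_trans Finset.card_image_le hcard
    · have h1 : ∑ u ∈ Finset.range n, f u =
          ((Finset.univ.filter (fun i : Fin n => f i = 1)).card : ℤ) -
          ((Finset.univ.filter (fun i : Fin n => f i = 1))ᶜ.card : ℤ) := by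
        rw [← Fin.sum_univ_eq_sum_range]
        have : ∀ i : Fin n, f i = if f i = 1 then 1 else -1 := by
          intro i
          rcases hf i with h | h
          · simp [h]
          · simp [h]
        rw [Finset.sum_congr rfl (fun i _ => this i), Finset.sum_ite]
        have e2 : (Finset.univ.filter (fun i : Fin n => f i = 1))ᶜ =
            Finset.univ.filter (fun i : Fin n => ¬ f i = 1) := by ext; simp
        rw [e2]
        simp
        ring
      rw [h1, abs_le] at hbal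
      refine ⟨by omega, by omega, ?_⟩
      intro u hu v hv hadj
      rw [Finset.mem_filter] at hu hv
      have hu' : f u = 1 := hu.2
      have hv' : f v ≠ 1 := fun h => hv ⟨Finset.mem_univ _, h⟩
      rcases hadj with h | h
      · rw [isParent_iff h0] at h
        rw [Finset.mem_image]
        refine ⟨v, ?_, ?_⟩
        · rw [Finset.mem_filter, Finset.mem_Ico, ← h.2]
          exact ⟨⟨h.1, v.2⟩, by rw [hu']; exact hv'⟩
        · unfold up
          rw [dif_pos ⟨h.1, v.2⟩]
          congr 1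
          ext
          · exact h.2.symm
      · rw [isParent_iff h0] at h
        rw [Finset.mem_image]
        refine ⟨u, ?_, ?_⟩
        · rw [Finset.mem_filter, Finset.mem_Ico, ← h.2]
          exact ⟨⟨h.1, u.2⟩, by rw [hu']; exact fun hh => hv' hh.symm⟩
        · unfold up
          rw [dif_pos ⟨h.1, u.2⟩, Sym2.eq_swap]
          congr 1
          ext
          · exact h.2.symm

/-- Abel summation -/
lemma abel (g : ℕ → ℤ) (n : ℕ) : ∑ u ∈ Finset.range n, g u =
    n * g (n - 1) - ∑ p ∈ Finset.range n, (p : ℤ) * (g p - g (p - 1)) := by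
  induction n with
  | zero => simp
  | succ n ih =>
    rw [Finset.sum_range_succ, Finset.sum_range_succ, ih, Nat.add_sub_cancel]
    push_cast
    ring

/-- balanced digits in base five -/
lemma digits (k : ℕ) (d : Fin k → ℤ) (hd : ∀ i, |d i| ≤ 2) (h : ∑ i : Fin k, (5 : ℤ) ^ (i : ℕ) * d i = 0) : ∀ i, d i = 0 := by
  induction k with
  | zero => intro i; exact i.elim0
  | succ k ih =>
    rw [Fin.sum_univ_succ] at h
    have h1 : ∑ i : Fin k, (5 : ℤ) ^ ((Fin.succ i : Fin (k + 1)) : ℕ) * d i.succ =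
        5 * ∑ i : Fin k, 5 ^ (i : ℕ) * d i.succ := by
      rw [Finset.mul_sum]
      apply Finset.sum_congr rfl
      intro i _
      rw [Fin.val_succ, pow_succ]
      ring
    rw [h1] at h
    simp only [Fin.val_zero, pow_zero, one_mul] at h
    have h2 := hd 0
    rw [abs_le] at h2
    have h3 : d 0 = 0 := by omega
    have h4 : ∑ i : Fin k, (5 : ℤ) ^ (i : ℕ) * d i.succ = 0 := by omega
    have h5 := ih (fun i => d i.succ) (fun i => hd _) h4
    intro i
    rcases Fin.eq_zero_or_eq_succ i with rfl | ⟨j, rfl⟩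
    · exact h3
    · exact h5 j

/-- the position of the cut that stands for `a ∈ A i` -/
def pos (k N i a : ℕ) : ℕ := (k + 1) * ((k * N + 1) * 5 ^ i + a)

/-- the starts of the blocks -/
def starts (k N : ℕ) (A : Fin k → Finset ℕ) : Finset ℕ :=
  insert 0 (Finset.univ.biUnion fun i : Fin k => (A i).image (pos k N i))

/-- the number of vertices -/
def size (k N : ℕ) : ℕ := 2 * (k + 1) * (k * N + 1) * ((5 ^ k + 1) / 6)

lemma zero_mem (k N : ℕ) (A : Fin k → Finset ℕ) : 0 ∈ starts k N A := by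
  simp [starts]

lemma mem_starts (k N : ℕ) (A : Fin k → Finset ℕ) (p : ℕ) :
    p ∈ starts k N A ↔ p = 0 ∨ ∃ i : Fin k, ∃ a ∈ A i, p = pos k N i a := by
  unfold starts
  rw [Finset.mem_insert]
  simp only [Finset.mem_biUnion, Finset.mem_univ, true_and, Finset.mem_image]
  constructor
  · rintro (h | ⟨i, a, ha, h⟩)
    · exact Or.inl h
    · exact Or.inr ⟨i, a, ha, h.symm⟩
  · rintro (h | ⟨i, a, ha, h⟩)
    · exact Or.inl h
    · exact Or.inr ⟨i, a, ha, h.symm⟩

lemma pos_pos (k N i a : ℕ) : 1 ≤ pos k N i a := by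
  unfold pos
  exact Nat.succ_le_of_lt (by positivity)

lemma kN (k N : ℕ) (hk : 1 ≤ k) : N < k * N + 1 := by nlinarith

lemma pos_lt {k N i j a b : ℕ} (hk : 1 ≤ k) (ha : a ≤ N) (hij : i < j) :
    pos k N i a < pos k N j b := by
  unfold pos
  have h1 : 5 ^ (i + 1) ≤ 5 ^ j := Nat.pow_le_pow_right (by norm_num) hij
  have h2 : 1 ≤ 5 ^ i := Nat.one_le_pow _ _ (by norm_num)
  have h3 := kN k N hk
  apply Nat.mul_lt_mul_of_pos_left _ (by omega)
  rw [pow_succ] at h1
  have h4 : (k * N + 1) * (5 ^ i * 5) ≤ (k * N + 1) * 5 ^ j := Nat.mul_le_mul_left _ h1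
  have h5 : (k * N + 1) * 1 ≤ (k * N + 1) * 5 ^ i := Nat.mul_le_mul_left _ h2
  nlinarith

lemma pos_inj {k N i j a b : ℕ} (hk : 1 ≤ k) (ha : a ≤ N) (hb : b ≤ N)
    (h : pos k N i a = pos k N j b) : i = j ∧ a = b := by
  rcases lt_trichotomy i j with hij | hij | hij
  · exact absurd h (pos_lt hk ha hij).ne
  · subst hij
    refine ⟨rfl, ?_⟩
    unfold pos at h
    have := Nat.eq_of_mul_eq_mul_left (by omega) h
    omega
  · exact absurd h (pos_lt hk hb hij).ne'

lemma size_pos (k N : ℕ) (hk : 1 ≤ k) : 1 ≤ size k N := by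
  unfold size
  have h1 : 5 ^ 1 ≤ 5 ^ k := Nat.pow_le_pow_right (by norm_num) hk
  have h2 : 1 ≤ (5 ^ k + 1) / 6 := by omega
  have h3 : 1 ≤ 2 * (k + 1) * (k * N + 1) := by nlinarith [Nat.zero_le (k * N)]
  exact Nat.one_le_iff_ne_zero.mpr (Nat.mul_ne_zero (by omega) (by omega))

lemma pos_lt_size (k N : ℕ) (hk : 1 ≤ k) (i : Fin k) (a : ℕ) (ha : a ≤ N) :
    pos k N i a < size k N := by
  obtain ⟨m, rfl⟩ : ∃ m, k = m + 1 := ⟨k - 1, by omega⟩
  unfold pos size
  have hi : (i : ℕ) ≤ m := by have := i.2; omega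
  have h1 : 5 ^ (i : ℕ) ≤ 5 ^ m := Nat.pow_le_pow_right (by norm_num) hi
  have h2 : 5 ^ m + 1 ≤ 2 * ((5 ^ (m + 1) + 1) / 6) := by
    rw [pow_succ]
    rcases Nat.eq_zero_or_pos m with h | h
    · subst h; norm_num
    · have : 5 ^ 1 ≤ 5 ^ m := Nat.pow_le_pow_right (by norm_num) h
      omega
  have h3 := kN (m + 1) N (by omega)
  have h4 : ((m + 1) * N + 1) * 5 ^ (i : ℕ) + a < ((m + 1) * N + 1) * (5 ^ m + 1) := by
    have := Nat.mul_le_mul_left ((m + 1) * N + 1) h1
    nlinarith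
  calc (m + 1 + 1) * (((m + 1) * N + 1) * 5 ^ (i : ℕ) + a)
      < (m + 1 + 1) * (((m + 1) * N + 1) * (5 ^ m + 1)) :=
        Nat.mul_lt_mul_of_pos_left h4 (by omega)
    _ ≤ (m + 1 + 1) * (((m + 1) * N + 1) * (2 * ((5 ^ (m + 1) + 1) / 6))) :=
        Nat.mul_le_mul_left _ (Nat.mul_le_mul_left _ h2)
    _ = 2 * (m + 1 + 1) * ((m + 1) * N + 1) * ((5 ^ (m + 1) + 1) / 6) := by ring

lemma five_mod (k : ℕ) : 5 ^ k % 6 = if Even k then 1 else 5 := by
  induction k with
  | zero => simp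
  | succ k ih =>
    rw [pow_succ, Nat.mul_mod, ih]
    by_cases h : Even k
    · have : ¬ Even (k + 1) := by rw [Nat.even_add_one]; exact not_not.mpr h
      simp [h, this]
    · have : Even (k + 1) := by rw [Nat.even_add_one]; exact h
      simp [h, this]

lemma alt_eq (k : ℕ) : (((5 ^ k + 1) / 6 : ℕ) : ℤ) =
    -(-1) ^ k * ∑ i : Fin k, (-1) ^ (i : ℕ) * 5 ^ (i : ℕ) := by
  have h1 : ∀ m : ℕ, 6 * ∑ i ∈ Finset.range m, (-1 : ℤ) ^ i * 5 ^ i = 1 - (-1) ^ m * 5 ^ m := by
    intro m
    induction m with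
    | zero => simp
    | succ m ih => rw [Finset.sum_range_succ, mul_add, ih]; ring
  have h2 := h1 k
  rw [← Fin.sum_univ_eq_sum_range (fun i => (-1 : ℤ) ^ i * 5 ^ i)] at h2
  have h3 := five_mod k
  have h4 : (6 : ℤ) * (((5 ^ k + 1) / 6 : ℕ) : ℤ) = 5 ^ k - (-1) ^ k := by
    by_cases h : Even k
    · rw [if_pos h] at h3
      rw [h.neg_one_pow]
      have : 6 * ((5 ^ k + 1) / 6) + 1 = 5 ^ k := by omega
      have h5 : ((6 * ((5 ^ k + 1) / 6) + 1 : ℕ) : ℤ) = ((5 ^ k : ℕ) : ℤ) := by rw [this]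
      push_cast at h5 ⊢
      linarith
    · rw [if_neg h] at h3
      rw [(Nat.not_even_iff_odd.mp h).neg_one_pow]
      have : 6 * ((5 ^ k + 1) / 6) = 5 ^ k + 1 := by omega
      have h5 : ((6 * ((5 ^ k + 1) / 6) : ℕ) : ℤ) = ((5 ^ k + 1 : ℕ) : ℤ) := by rw [this]
      push_cast at h5 ⊢
      linarith
  have h6 : (-1 : ℤ) ^ k * (-1) ^ k = 1 := by rw [← mul_pow]; simp
  have h7 : (6 : ℤ) * (-(-1) ^ k * ∑ i : Fin k, (-1) ^ (i : ℕ) * 5 ^ (i : ℕ)) =
      5 ^ k - (-1) ^ k := by
    calc (6 : ℤ) * (-(-1) ^ k * ∑ i : Fin k, (-1) ^ (i : ℕ) * 5 ^ (i : ℕ))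
        = -(-1) ^ k * (6 * ∑ i : Fin k, (-1) ^ (i : ℕ) * 5 ^ (i : ℕ)) := by ring
      _ = -(-1) ^ k * (1 - (-1) ^ k * 5 ^ k) := by rw [h2]
      _ = ((-1) ^ k * (-1) ^ k) * 5 ^ k - (-1) ^ k := by ring
      _ = 5 ^ k - (-1) ^ k := by rw [h6, one_mul]
  omega

/-- regrouping of a sum over positions -/
lemma regroup (k N : ℕ) (hk : 1 ≤ k) (A : Fin k → Finset ℕ) (hA : ∀ i, ∀ a ∈ A i, 1 ≤ a ∧ a ≤ N)
    (F : ℕ → ℤ) (hF : ∀ p ∈ Finset.range (size k N), F p ≠ 0 → p ∈ starts k N A ∧ p ≠ 0) :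
    ∑ p ∈ Finset.range (size k N), F p = ∑ i : Fin k, ∑ a ∈ A i, F (pos k N i a) := by
  have h1 : ∑ i : Fin k, ∑ a ∈ A i, F (pos k N i a) =
      ∑ p ∈ Finset.univ.biUnion (fun i : Fin k => (A i).image (pos k N i)), F p := by
    rw [Finset.sum_biUnion]
    · apply Finset.sum_congr rfl
      intro i _
      rw [Finset.sum_image]
      intro a ha b hb hab
      exact (pos_inj hk (hA i a ha).2 (hA i b hb).2 hab).2
    · intro i _ j _ hij
      rw [Function.onFun, Finset.disjoint_left]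
      intro p hp hp'
      rw [Finset.mem_image] at hp hp'
      obtain ⟨a, ha, rfl⟩ := hp
      obtain ⟨b, hb, hab⟩ := hp'
      exact hij (Fin.ext (pos_inj hk (hA j b hb).2 (hA i a ha).2 hab).1.symm)
  rw [h1]
  symm
  apply Finset.sum_subset
  · intro p hp
    rw [Finset.mem_biUnion] at hp
    obtain ⟨i, -, hp⟩ := hp
    rw [Finset.mem_image] at hp
    obtain ⟨a, ha, rfl⟩ := hp
    exact Finset.mem_range.mpr (pos_lt_size k N hk i a (hA i a ha).2)
  · intro p hp hp'
    by_contra hne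
    obtain ⟨h2, h3⟩ := hF p hp hne
    apply hp'
    unfold starts at h2
    rw [Finset.mem_insert] at h2
    exact h2.resolve_left h3

/-- the sign of the block of `u` -/
noncomputable def blk (S : Finset ℕ) (f : ℕ → ℤ) (u : ℕ) : ℤ := if u ∈ S then f u else f (par S u)

lemma blk_pred {S : Finset ℕ} (h0 : 0 ∈ S) (f : ℕ → ℤ) {p : ℕ} (hp : 1 ≤ p) :
    blk S f (p - 1) = f (par S p) := by
  unfold blk
  split_ifs with h
  · congr 1
    apply par_unique
    exact ⟨h, by omega, fun w _ hw => by omega⟩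
  · congr 1
    apply par_unique
    have hp1 : 1 ≤ p - 1 := by
      rcases Nat.eq_zero_or_pos (p - 1) with h' | h'
      · rw [h'] at h; exact absurd h0 h
      · exact h'
    have h1 := isParent_par h0 hp1
    refine ⟨h1.1, by have := h1.2.1; omega, fun w hw hwp => h1.2.2 w hw ?_⟩
    have : w ≠ p - 1 := fun h' => h (h' ▸ hw)
    omega

lemma blk_jump {S : Finset ℕ} (h0 : 0 ∈ S) (f : ℕ → ℤ) {p : ℕ} (hp : 1 ≤ p) :
    blk S f p - blk S f (p - 1) = if p ∈ S then f p - f (par S p) else 0 := by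
  rw [blk_pred h0 f hp]
  unfold blk
  split_ifs
  · rfl
  · ring

lemma blk_sign {S : Finset ℕ} {f : ℕ → ℤ} (hf : ∀ u, f u = 1 ∨ f u = -1) (u : ℕ) :
    blk S f u = 1 ∨ blk S f u = -1 := by
  unfold blk
  split_ifs
  · exact hf _
  · exact hf _

lemma telescope (g : ℕ → ℤ) (x y : ℕ) (h : x ≤ y) :
    ∑ p ∈ Finset.Ioc x y, (g p - g (p - 1)) = g y - g x := by
  induction y, h using Nat.le_induction with
  | base => simp
  | succ y hxy ih =>
    rw [← Finset.insert_Ioc_right_eq_Ioc_add_one hxy, Finset.sum_insert (by simp), ih,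
      Nat.add_sub_cancel]
    ring

theorem forward (k N : ℕ) (hk : 1 ≤ k) (A : Fin k → Finset ℕ)
    (hA : ∀ i, ∀ a ∈ A i, 1 ≤ a ∧ a ≤ N) (f : ℕ → ℤ) (hf : ∀ u, f u = 1 ∨ f u = -1)
    (hcut : ((Finset.Ico 1 (size k N)).filter
      (fun v => f v ≠ f (par (starts k N A) v))).card ≤ k)
    (hbal : |∑ u ∈ Finset.range (size k N), f u| ≤ 1) :
    ∃ a : Fin k → ℕ, (∀ i, a i ∈ A i) ∧ ∑ i : Fin k, (-1 : ℤ) ^ (i : ℕ) * (a i : ℤ) = 0 := by
  set S := starts k N A with hS
  set n := size k N with hn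
  set X := (Finset.Ico 1 n).filter (fun v => f v ≠ f (par S v)) with hX
  have h0 : 0 ∈ S := zero_mem k N A
  have hn1 : 1 ≤ n := size_pos k N hk
  set g := blk S f with hg
  -- the sum of `f` is zero
  have hfpar : ∀ m : ℕ, ∃ c : ℤ, ∑ u ∈ Finset.range m, f u = m + 2 * c := by
    intro m
    induction m with
    | zero => exact ⟨0, by simp⟩
    | succ m ih =>
      obtain ⟨c, hc⟩ := ih
      rw [Finset.sum_range_succ, hc]
      rcases hf m with h | h
      · exact ⟨c, by rw [h]; push_cast; ring⟩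
      · exact ⟨c - 1, by rw [h]; push_cast; ring⟩
  have hn2 : (n : ℤ) = 2 * ((k + 1) * (k * N + 1)) * (((5 ^ k + 1) / 6 : ℕ) : ℤ) := by
    rw [hn]; unfold size; push_cast; ring
  have hf0 : ∑ u ∈ Finset.range n, f u = 0 := by
    obtain ⟨c, hc⟩ := hfpar n
    rw [abs_le] at hbal
    rw [hn2] at hc
    have : ∑ u ∈ Finset.range n, f u =
        2 * ((k + 1) * (k * N + 1) * (((5 ^ k + 1) / 6 : ℕ) : ℤ) + c) := by
      rw [hc]; ring
    omega
  -- jumps of `g`
  have hjump : ∀ p, 1 ≤ p → g p - g (p - 1) = if p ∈ S then f p - f (par S p) else 0 :=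
    fun p hp => blk_jump h0 f hp
  have hjS : ∀ p, g p - g (p - 1) ≠ 0 → p ∈ S ∧ p ≠ 0 := by
    intro p hp
    have hp0 : p ≠ 0 := by rintro rfl; simp at hp
    refine ⟨?_, hp0⟩
    by_contra h
    rw [hjump p (Nat.one_le_iff_ne_zero.mpr hp0), if_neg h] at hp
    exact hp rfl
  have hjX : ∀ p ∈ Finset.range n, g p - g (p - 1) ≠ 0 → p ∈ X := by
    intro p hp hp'
    obtain ⟨h1, h2⟩ := hjS p hp'
    rw [hjump p (Nat.one_le_iff_ne_zero.mpr h2), if_pos h1] at hp'
    rw [hX, Finset.mem_filter, Finset.mem_Ico]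
    rw [Finset.mem_range] at hp
    exact ⟨⟨by omega, hp⟩, fun h => hp' (by rw [h]; ring)⟩
  have hj2 : ∀ p, ∃ c : ℤ, g p - g (p - 1) = 2 * c ∧ |c| ≤ 1 := by
    intro p
    rcases blk_sign (S := S) hf p with h | h <;> rcases blk_sign (S := S) hf (p - 1) with h' | h'
    · exact ⟨0, by rw [hg, h, h']; norm_num, by norm_num⟩
    · exact ⟨1, by rw [hg, h, h']; norm_num, by norm_num⟩
    · exact ⟨-1, by rw [hg, h, h']; norm_num, by norm_num⟩
    · exact ⟨0, by rw [hg, h, h']; norm_num, by norm_num⟩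
  have hsumX : ∑ p ∈ Finset.range n, (if p ∈ X then (2 : ℤ) else 0) ≤ 2 * k := by
    rw [← Finset.sum_filter]
    have h1 : (Finset.range n).filter (fun p => p ∈ X) ⊆ X := by
      intro p hp; exact (Finset.mem_filter.mp hp).2
    have h2 := Finset.card_le_card h1
    rw [Finset.sum_const, nsmul_eq_mul]
    have h3 : (((Finset.range n).filter (fun p => p ∈ X)).card : ℤ) ≤ k := by
      exact_mod_cast le_trans h2 hcut
    linarith
  -- leaf cuts do not help
  have hleaf : |∑ u ∈ Finset.range n, (f u - g u)| ≤ 2 * k := by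
    refine le_trans (Finset.abs_sum_le_sum_abs _ _) (le_trans (Finset.sum_le_sum ?_) hsumX)
    intro u hu
    by_cases huS : u ∈ S
    · have : g u = f u := by rw [hg]; unfold blk; rw [if_pos huS]
      rw [this]; simp; split_ifs <;> norm_num
    · have h1 : g u = f (par S u) := by rw [hg]; unfold blk; rw [if_neg huS]
      rw [h1]
      by_cases h2 : f u = f (par S u)
      · rw [h2]; simp; split_ifs <;> norm_num
      · have h3 : u ∈ X := by
          rw [hX, Finset.mem_filter, Finset.mem_Ico]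
          rw [Finset.mem_range] at hu
          refine ⟨⟨?_, hu⟩, h2⟩
          rcases Nat.eq_zero_or_pos u with h | h
          · subst h; exact absurd h0 huS
          · exact h
        rw [if_pos h3]
        rcases hf u with h | h <;> rcases hf (par S u) with h' | h' <;> rw [h, h'] <;> norm_num
  have hgsum : ∑ u ∈ Finset.range n, g u = - ∑ u ∈ Finset.range n, (f u - g u) := by
    rw [Finset.sum_sub_distrib, hf0]; ring
  have hab := abel g n
  have hdvd : (2 * ((k : ℤ) + 1)) ∣ ∑ u ∈ Finset.range n, g u := by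
    rw [hab]
    apply dvd_sub
    · rw [hn2]
      exact ⟨(k * N + 1) * (((5 ^ k + 1) / 6 : ℕ) : ℤ) * g (n - 1), by ring⟩
    · apply Finset.dvd_sum
      intro p _
      by_cases h : g p - g (p - 1) = 0
      · rw [h, mul_zero]; exact dvd_zero _
      · obtain ⟨h1, h2⟩ := hjS p h
        rw [hS, mem_starts] at h1
        obtain ⟨i, a, -, hpe⟩ := h1.resolve_left h2
        obtain ⟨c, hc, -⟩ := hj2 p
        rw [hc, hpe]
        unfold pos
        push_cast
        exact ⟨((k * N + 1) * 5 ^ (i : ℕ) + a) * c, by ring⟩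
  have hg0 : ∑ u ∈ Finset.range n, g u = 0 := by
    apply Int.eq_zero_of_abs_lt_dvd hdvd
    rw [hgsum, abs_neg]
    refine lt_of_le_of_lt hleaf ?_
    linarith
  rw [hab] at hg0
  -- regrouping
  have hreg : ∑ p ∈ Finset.range n, (p : ℤ) * (g p - g (p - 1)) =
      ∑ i : Fin k, ∑ a ∈ A i, (pos k N i a : ℤ) * (g (pos k N i a) - g (pos k N i a - 1)) := by
    apply regroup k N hk A hA (fun p => (p : ℤ) * (g p - g (p - 1)))
    intro p _ hp
    exact hjS p (fun h => hp (by rw [h, mul_zero]))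
  have habs : ∑ i : Fin k, ∑ a ∈ A i, |g (pos k N i a) - g (pos k N i a - 1)| ≤ 2 * k := by
    rw [← regroup k N hk A hA (fun p => |g p - g (p - 1)|)]
    · refine le_trans (Finset.sum_le_sum ?_) hsumX
      intro p hp
      by_cases h : g p - g (p - 1) = 0
      · rw [h]; simp; split_ifs <;> norm_num
      · rw [if_pos (hjX p hp h)]
        obtain ⟨c, hc, hc'⟩ := hj2 p
        rw [hc, abs_mul]
        norm_num
        exact hc'
    · intro p _ hp
      exact hjS p (fun h => hp (by rw [h, abs_zero]))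
  -- the sum of the jumps of the class `i`
  have hE : ∀ i : Fin k, ∑ a ∈ A i, (g (pos k N i a) - g (pos k N i a - 1)) =
      g (pos k N i N) - g (pos k N i 0) := by
    intro i
    have h1 : pos k N i 0 ≤ pos k N i N := by
      unfold pos; exact Nat.mul_le_mul_left _ (by omega)
    rw [← telescope g _ _ h1]
    have h2 : ∑ a ∈ A i, (g (pos k N i a) - g (pos k N i a - 1)) =
        ∑ p ∈ (A i).image (pos k N i), (g p - g (p - 1)) := by
      rw [Finset.sum_image]
      intro a ha b hb hab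
      exact (pos_inj hk (hA i a ha).2 (hA i b hb).2 hab).2
    rw [h2]
    apply Finset.sum_subset
    · intro p hp
      rw [Finset.mem_image] at hp
      obtain ⟨a, ha, rfl⟩ := hp
      have := hA i a ha
      rw [Finset.mem_Ioc]
      unfold pos
      constructor
      · exact Nat.mul_lt_mul_of_pos_left (by omega) (by omega)
      · exact Nat.mul_le_mul_left _ (by omega)
    · intro p hp hp'
      by_contra hne
      obtain ⟨h3, h4⟩ := hjS p hne
      rw [hS, mem_starts] at h3
      obtain ⟨j, b, hb, hpe⟩ := h3.resolve_left h4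
      rw [Finset.mem_Ioc] at hp
      rcases lt_trichotomy (j : ℕ) i with hij | hij | hij
      · have := pos_lt (b := 0) hk (hA j b hb).2 hij
        omega
      · have hji : j = i := Fin.ext hij
        subst hji
        exact hp' (Finset.mem_image.mpr ⟨b, hb, hpe.symm⟩)
      · have := pos_lt (N := N) (a := N) (b := b) hk le_rfl hij
        omega
  have hE2 : ∀ i : Fin k, ∃ e : ℤ, ∑ a ∈ A i, (g (pos k N i a) - g (pos k N i a - 1)) = 2 * e ∧
      |e| ≤ 1 := by
    intro i
    rw [hE i]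
    rcases blk_sign (S := S) hf (pos k N i N) with h | h <;>
      rcases blk_sign (S := S) hf (pos k N i 0) with h' | h'
    · exact ⟨0, by rw [hg, h, h']; norm_num, by norm_num⟩
    · exact ⟨1, by rw [hg, h, h']; norm_num, by norm_num⟩
    · exact ⟨-1, by rw [hg, h, h']; norm_num, by norm_num⟩
    · exact ⟨0, by rw [hg, h, h']; norm_num, by norm_num⟩
  choose e he he1 using hE2
  set R : ℤ := ∑ i : Fin k, ∑ a ∈ A i, (a : ℤ) * (g (pos k N i a) - g (pos k N i a - 1)) with hR
  have hRabs : |R| ≤ N * (2 * k) := by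
    calc |R| ≤ ∑ i : Fin k, |∑ a ∈ A i, (a : ℤ) * (g (pos k N i a) - g (pos k N i a - 1))| :=
          Finset.abs_sum_le_sum_abs _ _
      _ ≤ ∑ i : Fin k, ∑ a ∈ A i, (N : ℤ) * |g (pos k N i a) - g (pos k N i a - 1)| := by
          apply Finset.sum_le_sum
          intro i _
          refine le_trans (Finset.abs_sum_le_sum_abs _ _) (Finset.sum_le_sum ?_)
          intro a ha
          rw [abs_mul]
          apply mul_le_mul_of_nonneg_right _ (abs_nonneg _)
          rw [abs_of_nonneg (by positivity)]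
          exact_mod_cast (hA i a ha).2
      _ = N * ∑ i : Fin k, ∑ a ∈ A i, |g (pos k N i a) - g (pos k N i a - 1)| := by
          rw [Finset.mul_sum]
          apply Finset.sum_congr rfl
          intro i _
          rw [Finset.mul_sum]
      _ ≤ N * (2 * k) := by
          apply mul_le_mul_of_nonneg_left habs (by positivity)
  have hsplit : ∑ i : Fin k, ∑ a ∈ A i, (pos k N i a : ℤ) * (g (pos k N i a) -
      g (pos k N i a - 1)) =
      ((k : ℤ) + 1) * ((k * N + 1) * (2 * ∑ i : Fin k, (5 : ℤ) ^ (i : ℕ) * e i) + R) := by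
    have h1 : ∀ i : Fin k, ∑ a ∈ A i, (pos k N i a : ℤ) * (g (pos k N i a) -
        g (pos k N i a - 1)) = ((k : ℤ) + 1) * ((k * N + 1) * (5 ^ (i : ℕ) * (2 * e i)) +
          ∑ a ∈ A i, (a : ℤ) * (g (pos k N i a) - g (pos k N i a - 1))) := by
      intro i
      rw [← he i, mul_add, Finset.mul_sum, Finset.mul_sum, Finset.mul_sum, Finset.mul_sum,
        ← Finset.sum_add_distrib]
      apply Finset.sum_congr rfl
      intro a _
      have : (pos k N i a : ℤ) = ((k : ℤ) + 1) * ((k * N + 1) * 5 ^ (i : ℕ) + a) := by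
        unfold pos; push_cast; ring
      rw [this]
      ring
    rw [Finset.sum_congr rfl (fun i _ => h1 i), ← Finset.mul_sum, Finset.sum_add_distrib, ← hR]
    congr 2
    rw [Finset.mul_sum, Finset.mul_sum]
    apply Finset.sum_congr rfl
    intro i _
    ring
  rw [hreg, hsplit, hn2] at hg0
  set t : ℤ := (((5 ^ k + 1) / 6 : ℕ) : ℤ) with ht
  set γ : ℤ := g (n - 1) with hγ
  have hkey : 2 * (((k : ℤ) * N + 1) * (t * γ - ∑ i : Fin k, (5 : ℤ) ^ (i : ℕ) * e i)) = R := by
    have h1 : ((k : ℤ) + 1) * (2 * (((k : ℤ) * N + 1) * (t * γ -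
        ∑ i : Fin k, (5 : ℤ) ^ (i : ℕ) * e i)) - R) = 0 := by
      linear_combination hg0
    have h2 : ((k : ℤ) + 1) ≠ 0 := by positivity
    have h3 := (mul_eq_zero.mp h1).resolve_left h2
    linarith
  have hW : t * γ - ∑ i : Fin k, (5 : ℤ) ^ (i : ℕ) * e i = 0 := by
    by_contra hne
    have h1 : 1 ≤ |t * γ - ∑ i : Fin k, (5 : ℤ) ^ (i : ℕ) * e i| := Int.one_le_abs hne
    have h2 : |R| = 2 * (((k : ℤ) * N + 1) * |t * γ - ∑ i : Fin k, (5 : ℤ) ^ (i : ℕ) * e i|) := by
      rw [← hkey, abs_mul, abs_mul, abs_of_nonneg (by positivity : (0 : ℤ) ≤ (k : ℤ) * N + 1)]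
      norm_num
    have h3 : ((k : ℤ) * N + 1) * 1 ≤ ((k : ℤ) * N + 1) *
        |t * γ - ∑ i : Fin k, (5 : ℤ) ^ (i : ℕ) * e i| :=
      mul_le_mul_of_nonneg_left h1 (by positivity)
    rw [h2] at hRabs
    nlinarith
  have hR0 : R = 0 := by rw [← hkey, hW]; ring
  have hsq : (-1 : ℤ) ^ k = 1 ∨ (-1 : ℤ) ^ k = -1 := neg_one_pow_eq_or ℤ k
  have hγ1 : γ = 1 ∨ γ = -1 := blk_sign hf _
  have hd : ∀ i : Fin k, e i + γ * ((-1) ^ k * (-1) ^ (i : ℕ)) = 0 := by
    apply digits k (fun i => e i + γ * ((-1) ^ k * (-1) ^ (i : ℕ)))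
    · intro i
      have h1 := he1 i
      rw [abs_le] at h1 ⊢
      rcases hγ1 with h | h <;> rcases hsq with h' | h' <;>
        rcases neg_one_pow_eq_or ℤ (i : ℕ) with h'' | h'' <;>
        simp only [h, h', h''] <;> constructor <;> linarith [h1.1, h1.2]
    · have h1 : ∑ i : Fin k, (5 : ℤ) ^ (i : ℕ) * (e i + γ * ((-1) ^ k * (-1) ^ (i : ℕ))) =
          ∑ i : Fin k, (5 : ℤ) ^ (i : ℕ) * e i +
          γ * ((-1) ^ k * ∑ i : Fin k, (-1) ^ (i : ℕ) * 5 ^ (i : ℕ)) := by
        rw [Finset.mul_sum, Finset.mul_sum, ← Finset.sum_add_distrib]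
        apply Finset.sum_congr rfl
        intro i _
        ring
      rw [h1]
      have h2 := alt_eq k
      rw [← ht] at h2
      have h3 : (-1 : ℤ) ^ k * ∑ i : Fin k, (-1) ^ (i : ℕ) * 5 ^ (i : ℕ) = -t := by
        rw [h2]; ring
      rw [h3]
      linarith
  have hene : ∀ i, e i ≠ 0 := by
    intro i h
    have h1 := hd i
    rw [h] at h1
    rcases hγ1 with h | h <;> rcases hsq with h' | h' <;>
      rcases neg_one_pow_eq_or ℤ (i : ℕ) with h'' | h'' <;>
      rw [h, h', h''] at h1 <;> norm_num at h1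
  have hex : ∀ i : Fin k, ∃ a ∈ A i, g (pos k N i a) - g (pos k N i a - 1) ≠ 0 := by
    intro i
    by_contra hcon
    push Not at hcon
    apply hene i
    have h1 := he i
    rw [Finset.sum_eq_zero hcon] at h1
    omega
  choose a ha hane using hex
  have hYX : Finset.univ.image (fun i : Fin k => pos k N i (a i)) = X := by
    apply Finset.eq_of_subset_of_card_le
    · intro p hp
      rw [Finset.mem_image] at hp
      obtain ⟨i, -, rfl⟩ := hp
      exact hjX _ (Finset.mem_range.mpr (pos_lt_size k N hk i _ (hA i _ (ha i)).2)) (hane i)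
    · rw [Finset.card_image_of_injective]
      · simpa using hcut
      · intro i j hij
        exact Fin.ext (pos_inj hk (hA i _ (ha i)).2 (hA j _ (ha j)).2 hij).1
  have hunique : ∀ i : Fin k, ∀ b ∈ A i, b ≠ a i → g (pos k N i b) - g (pos k N i b - 1) = 0 := by
    intro i b hb hba
    by_contra hne
    have h1 := hjX _ (Finset.mem_range.mpr (pos_lt_size k N hk i _ (hA i _ hb).2)) hne
    rw [← hYX, Finset.mem_image] at h1
    obtain ⟨j, -, hj⟩ := h1
    have h2 := pos_inj hk (hA j _ (ha j)).2 (hA i _ hb).2 hj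
    have hji : j = i := Fin.ext h2.1
    subst hji
    exact hba h2.2.symm
  have hjump2 : ∀ i : Fin k, g (pos k N i (a i)) - g (pos k N i (a i) - 1) = 2 * e i := by
    intro i
    rw [← he i]
    symm
    apply Finset.sum_eq_single_of_mem _ (ha i)
    intro b hb hba
    exact hunique i b hb hba
  refine ⟨a, ha, ?_⟩
  have hR2 : R = ∑ i : Fin k, (a i : ℤ) * (2 * e i) := by
    rw [hR]
    apply Finset.sum_congr rfl
    intro i _
    rw [← hjump2 i]
    apply Finset.sum_eq_single_of_mem _ (ha i)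
    intro b hb hba
    rw [hunique i b hb hba, mul_zero]
  have hR3 : R = -2 * (γ * (-1) ^ k) * ∑ i : Fin k, (-1 : ℤ) ^ (i : ℕ) * (a i : ℤ) := by
    rw [hR2, Finset.mul_sum]
    apply Finset.sum_congr rfl
    intro i _
    have := hd i
    have h1 : e i = -(γ * ((-1) ^ k * (-1) ^ (i : ℕ))) := by linarith
    rw [h1]
    ring
  rw [hR0] at hR3
  rcases mul_eq_zero.mp hR3.symm with h | h
  · exfalso
    rcases hγ1 with h' | h' <;> rcases hsq with h'' | h'' <;> rw [h', h''] at h <;> norm_num at h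
  · exact h

theorem backward (k N : ℕ) (hk : 1 ≤ k) (A : Fin k → Finset ℕ)
    (hA : ∀ i, ∀ a ∈ A i, 1 ≤ a ∧ a ≤ N) (a : Fin k → ℕ) (ha : ∀ i, a i ∈ A i)
    (hsum : ∑ i : Fin k, (-1 : ℤ) ^ (i : ℕ) * (a i : ℤ) = 0) :
    ∃ f : ℕ → ℤ, (∀ u, f u = 1 ∨ f u = -1) ∧
      ((Finset.Ico 1 (size k N)).filter
        (fun v => f v ≠ f (par (starts k N A) v))).card ≤ k ∧
      |∑ u ∈ Finset.range (size k N), f u| ≤ 1 := by
  set S := starts k N A with hS
  set n := size k N with hn
  have h0 : 0 ∈ S := zero_mem k N A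
  have hn1 : 1 ≤ n := size_pos k N hk
  set P : Fin k → ℕ := fun i => pos k N i (a i) with hP
  have haN : ∀ i, a i ≤ N := fun i => (hA i _ (ha i)).2
  have hPS : ∀ i, P i ∈ S := by
    intro i
    rw [hS, mem_starts]
    exact Or.inr ⟨i, a i, ha i, rfl⟩
  have hPn : ∀ i, P i < n := fun i => pos_lt_size k N hk i _ (haN i)
  have hPlt : ∀ i j : Fin k, i < j → P i < P j := fun i j hij => pos_lt hk (haN i) hij
  have hPle : ∀ i j : Fin k, P i ≤ P j ↔ i ≤ j := by
    intro i j
    constructor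
    · intro h
      by_contra h'
      exact absurd h (not_le.mpr (hPlt j i (not_le.mp h')))
    · intro h
      rcases h.lt_or_eq with h' | h'
      · exact (hPlt i j h').le
      · rw [h']
  set c : ℕ → ℕ := fun u => (Finset.univ.filter (fun i : Fin k => P i ≤ u)).card with hc
  set f : ℕ → ℤ := fun u => (-1) ^ c u with hf
  have hcP : ∀ i : Fin k, c (P i) = i + 1 := by
    intro i
    have : Finset.univ.filter (fun j : Fin k => P j ≤ P i) = Finset.Iic i := by
      ext j; simp [hPle]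
    rw [hc]
    simp only [this, Fin.card_Iic]
  have hcP' : ∀ i : Fin k, c (P i - 1) = i := by
    intro i
    have : Finset.univ.filter (fun j : Fin k => P j ≤ P i - 1) = Finset.Iio i := by
      ext j
      have h1 : 1 ≤ P i := pos_pos _ _ _ _
      have h2 : P j ≤ P i - 1 ↔ ¬ P i ≤ P j := by omega
      simp [h2, hPle]
    rw [hc]
    simp only [this, Fin.card_Iio]
  have hcne : ∀ u v, u ≤ v → f u ≠ f v → ∃ i, u < P i ∧ P i ≤ v := by
    intro u v huv hne
    by_contra hcon
    push Not at hcon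
    apply hne
    have : Finset.univ.filter (fun i : Fin k => P i ≤ u) =
        Finset.univ.filter (fun i : Fin k => P i ≤ v) := by
      ext i
      simp only [Finset.mem_filter, Finset.mem_univ, true_and]
      constructor
      · intro h; exact le_trans h huv
      · intro h
        by_contra h'
        exact absurd h (not_le.mpr (hcon i (not_le.mp h')))
    rw [hf, hc]
    simp only [this]
  refine ⟨f, fun u => neg_one_pow_eq_or ℤ _, ?_, ?_⟩
  · have h1 : (Finset.Ico 1 n).filter (fun v => f v ≠ f (par S v)) ⊆ Finset.univ.image P := by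
      intro v hv
      rw [Finset.mem_filter, Finset.mem_Ico] at hv
      obtain ⟨⟨hv1, hvn⟩, hne⟩ := hv
      have hp := isParent_par h0 hv1
      obtain ⟨i, hi1, hi2⟩ := hcne _ _ hp.2.1.le hne.symm
      rw [Finset.mem_image]
      refine ⟨i, Finset.mem_univ _, ?_⟩
      by_contra h
      have := hp.2.2 (P i) (hPS i) (by omega)
      omega
    refine le_trans (Finset.card_le_card h1) (le_trans Finset.card_image_le ?_)
    simp
  · have hlast : f (n - 1) = (-1) ^ k := by
      have : Finset.univ.filter (fun i : Fin k => P i ≤ n - 1) = Finset.univ := by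
        ext i
        have := hPn i
        simp; omega
      rw [hf, hc]
      simp only [this, Finset.card_univ, Fintype.card_fin]
    have hjumps : ∑ p ∈ Finset.range n, (p : ℤ) * (f p - f (p - 1)) =
        ∑ i : Fin k, (P i : ℤ) * (-2 * (-1) ^ (i : ℕ)) := by
      have h1 : ∑ p ∈ Finset.univ.image P, (p : ℤ) * (f p - f (p - 1)) =
          ∑ i : Fin k, (P i : ℤ) * (-2 * (-1) ^ (i : ℕ)) := by
        rw [Finset.sum_image]
        · apply Finset.sum_congr rfl
          intro i _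
          have h2 : f (P i) = (-1) ^ ((i : ℕ) + 1) := by rw [hf]; simp only [hcP]
          have h3 : f (P i - 1) = (-1) ^ (i : ℕ) := by rw [hf]; simp only [hcP']
          rw [h2, h3, pow_succ]
          ring
        · intro i _ j _ hij
          have hij' : P i = P j := hij
          exact le_antisymm ((hPle i j).mp hij'.le) ((hPle j i).mp hij'.ge)
      rw [← h1]
      symm
      apply Finset.sum_subset
      · intro p hp
        rw [Finset.mem_image] at hp
        obtain ⟨i, -, rfl⟩ := hp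
        exact Finset.mem_range.mpr (hPn i)
      · intro p _ hp
        have : f (p - 1) = f p := by
          by_contra hne
          obtain ⟨i, hi1, hi2⟩ := hcne _ _ (Nat.sub_le p 1) hne
          apply hp
          rw [Finset.mem_image]
          exact ⟨i, Finset.mem_univ _, by omega⟩
        rw [this]; ring
    have hn2 : (n : ℤ) = 2 * ((k + 1) * (k * N + 1)) * (((5 ^ k + 1) / 6 : ℕ) : ℤ) := by
      rw [hn]; unfold size; push_cast; ring
    have hPsum : ∑ i : Fin k, (P i : ℤ) * (-2 * (-1) ^ (i : ℕ)) =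
        -2 * ((k : ℤ) + 1) * (k * N + 1) * ∑ i : Fin k, (-1) ^ (i : ℕ) * 5 ^ (i : ℕ) := by
      have h1 : ∀ i : Fin k, (P i : ℤ) * (-2 * (-1) ^ (i : ℕ)) =
          -2 * ((k : ℤ) + 1) * (k * N + 1) * ((-1) ^ (i : ℕ) * 5 ^ (i : ℕ)) +
          (-2 * ((k : ℤ) + 1)) * ((-1) ^ (i : ℕ) * (a i : ℤ)) := by
        intro i
        have : (P i : ℤ) = ((k : ℤ) + 1) * ((k * N + 1) * 5 ^ (i : ℕ) + a i) := by
          rw [hP]; unfold pos; push_cast; ring
        rw [this]; ring
      rw [Finset.sum_congr rfl (fun i _ => h1 i), Finset.sum_add_distrib, ← Finset.mul_sum,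
        ← Finset.mul_sum, hsum]
      ring
    have hab := abel f n
    rw [hlast, hjumps, hPsum, hn2, alt_eq k] at hab
    have h6 : (-1 : ℤ) ^ k * (-1) ^ k = 1 := by rw [← mul_pow]; simp
    have h7 : ∑ u ∈ Finset.range n, f u = 0 := by
      rw [hab]
      linear_combination (-2 * ((k : ℤ) + 1) * (k * N + 1) *
        ∑ i : Fin k, (-1) ^ (i : ℕ) * 5 ^ (i : ℕ)) * h6
    rw [h7]
    norm_num

/-- Let `k ≥ 1` and let `A 0, ..., A (k-1)` be subsets of `{1, ..., N}`. The graph
`cat (starts k N A) (size k N)` is a tree with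
`size k N = 2 (k+1) (kN+1) ⌊(5^k+1)/6⌋` vertices, and it has a bisection with at most `k` edges
between the two parts if and only if there are `a i ∈ A i` with
`a 0 - a 1 + a 2 - ... + (-1)^(k-1) a (k-1) = 0`. -/
theorem result (k N : ℕ) (hk : 1 ≤ k) (A : Fin k → Finset ℕ)
    (hA : ∀ i, ∀ a ∈ A i, 1 ≤ a ∧ a ≤ N) :
    (cat (starts k N A) (size k N)).IsTree ∧
    (HasBisection (cat (starts k N A) (size k N)) k ↔
      ∃ a : Fin k → ℕ, (∀ i, a i ∈ A i) ∧ ∑ i : Fin k, (-1 : ℤ) ^ (i : ℕ) * (a i : ℤ) = 0) := by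
  refine ⟨cat_isTree _ _ (zero_mem k N A) (size_pos k N hk), ?_⟩
  rw [hasBisection_iff _ _ _ (zero_mem k N A) (size_pos k N hk)]
  constructor
  · rintro ⟨f, hf, hcut, hbal⟩
    exact forward k N hk A hA f hf hcut hbal
  · rintro ⟨a, ha, hsum⟩
    exact backward k N hk A hA a ha hsum

end Pool.Agent.Results.MP_411ddf_lc.AlternatingSum
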